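import Pool.Agent.Helper76.TC.Goals

/-!
# Project TC (MP_ccd65d_gt), packet TC-CO (concentration)
-/

set_option autoImplicit false

open Set Filter Topology

namespace Pool.Agent.Helper13.TC.CO

open Pool.Agent.Helper50.CT (rv Cov Sh StmtLAB)
open Pool.Agent.Helper76.TC

theorem t (hTR : S_TR) (hLAB : StmtLAB) : S_CO := by
  intro n A e D X T _ _ _ _ π p q hS
  obtain ⟨y, hy⟩ := hTR n A e D X T π p q hS
  have hV := hS.cov
  have he := hS.epos
  have hAe : e ≤ A * e := le_mul_of_one_le_left he.le hS.A1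
  refine ⟨y, fun k => ?_⟩
  have hres := hLAB X (Fin n → ℤ) (AddSubgroup.closure (Sh n y (24 * A * e)))
    (lv π p fun s => dist (π p) (π y) - 9 * A * e < s ∧ s < dist (π p) (π y) + 9 * A * e)
    (fun w β => dist w (β +ᵥ y) < 12 * (A * e)) ?_ ?_ ?_ y (k +ᵥ y) 0 k (hy k) ?_ ?_
  · rwa [sub_zero] at hres
  · intro w hw
    have hw1 : dist (π p) (π y) - 9 * A * e < dist (π p) (π w) ∧
      dist (π p) (π w) < dist (π p) (π y) + 9 * A * e := hw
    obtain ⟨hw1, hw2⟩ := hw1
    obtain ⟨β, hβ⟩ := hV.lift w y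
    refine ⟨β, ?_⟩
    show dist w (β +ᵥ y) < 12 * (A * e)
    rw [hβ]
    have h6 := hS.thin w y
    have h7 : |dist (π p) (π w) - dist (π p) (π y)| < 9 * (A * e) := by
      rw [abs_lt]
      constructor <;> linarith
    linarith
  · intro w _ β β' h5 h6
    apply AddSubgroup.subset_closure
    show dist y ((β' - β) +ᵥ y) ≤ 24 * A * e
    have h5 : dist w (β +ᵥ y) < 12 * (A * e) := h5
    have h6 : dist w (β' +ᵥ y) < 12 * (A * e) := h6
    have h7 : dist (β +ᵥ y) (β' +ᵥ y) = dist y ((β' - β) +ᵥ y) := by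
      rw [← hV.isom β y ((β' - β) +ᵥ y), vadd_vadd, add_sub_cancel]
    have h8 := dist_triangle_left (β +ᵥ y) (β' +ᵥ y) w
    linarith
  · intro w _ β h5
    have : Continuous (fun v => dist v (β +ᵥ y)) := continuous_id.dist continuous_const
    exact this.continuousAt.eventually_lt continuousAt_const h5
  · show dist y ((0 : Fin n → ℤ) +ᵥ y) < 12 * (A * e)
    rw [zero_vadd, dist_self]
    linarith
  · show dist (k +ᵥ y) (k +ᵥ y) < 12 * (A * e)
    rw [dist_self]
    linarith

end Pool.Agent.Helper13.TC.CO
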